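import Pool.Agent.H322R2.CompB

/-!
# Trial and error: the algorithm

Computability of the procedure which looks through all integer points of a computable family of plane
curves and replaces its bound whenever a point beats the present bound.
-/

set_option autoImplicit false

namespace Pool.Agent.V11270.SI

open Pool.Agent.H322R2

/-- the integer with the code `u` -/
def toInt (u : ℕ) : ℤ := (-1) ^ u * ((u / 2 : ℕ) : ℤ)

lemma toInt_surj (x : ℤ) : ∃ u : ℕ, toInt u = x := by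
  rcases le_or_gt 0 x with h | h
  · refine ⟨2 * x.natAbs, ?_⟩
    unfold toInt
    rw [pow_mul, neg_one_sq, one_pow, one_mul, Nat.mul_div_cancel_left _ (by norm_num)]
    omega
  · refine ⟨2 * x.natAbs + 1, ?_⟩
    unfold toInt
    rw [pow_succ, pow_mul, neg_one_sq, one_pow, one_mul]
    have : (2 * x.natAbs + 1) / 2 = x.natAbs := by omega
    rw [this]
    omega

lemma natAbs_toInt (u : ℕ) : (toInt u).natAbs = u / 2 := by
  unfold toInt
  rw [Int.natAbs_mul, Int.natAbs_pow, Int.natAbs_natCast]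
  simp

lemma coeff_eq (c : ℤ) : c = (-1) ^ (Encodable.encode c) * (c.natAbs : ℤ) := by
  have h2 : Encodable.encode c = Equiv.intEquivNat c := rfl
  rw [h2]
  rcases c with n | n
  · have h3 : Equiv.intEquivNat (Int.ofNat n) = 2 * n := rfl
    rw [h3, pow_mul, neg_one_sq, one_pow, one_mul]
    simp
  · have h3 : Equiv.intEquivNat (Int.negSucc n) = 2 * n + 1 := rfl
    rw [h3, pow_succ, pow_mul, neg_one_sq, one_pow, one_mul]
    simp only [Int.natAbs_negSucc]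
    push_cast
    rw [Int.negSucc_eq]
    ring

/-- absolute value of a term -/
def tA (t : ℕ × ℕ × ℤ) (u v : ℕ) : ℕ := t.2.2.natAbs * ((u / 2) ^ t.1 * (v / 2) ^ t.2.1)

/-- sign bit of a term -/
def tS (t : ℕ × ℕ × ℤ) (u v : ℕ) : ℕ := (Encodable.encode t.2.2 + (u * t.1 + v * t.2.1)) % 2

lemma term_eq (t : ℕ × ℕ × ℤ) (u v : ℕ) :
    t.2.2 * toInt u ^ t.1 * toInt v ^ t.2.1 =
      (((1 - tS t u v) * tA t u v : ℕ) : ℤ) - ((tS t u v * tA t u v : ℕ) : ℤ) := by
  have h1 : t.2.2 * toInt u ^ t.1 * toInt v ^ t.2.1 =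
      (-1) ^ (Encodable.encode t.2.2 + (u * t.1 + v * t.2.1)) * (tA t u v : ℤ) := by
    unfold toInt tA
    conv_lhs => rw [coeff_eq t.2.2]
    push_cast
    rw [mul_pow, mul_pow, ← pow_mul, ← pow_mul, pow_add, pow_add]
    ring
  rw [h1]
  obtain ⟨e, he⟩ : ∃ e, e = Encodable.encode t.2.2 + (u * t.1 + v * t.2.1) := ⟨_, rfl⟩
  have h2 : tS t u v = e % 2 := by rw [he]; rfl
  rw [h2, ← he]
  rcases Nat.even_or_odd e with h | h
  · rw [h.neg_one_pow, Nat.even_iff.1 h]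
    simp
  · rw [h.neg_one_pow, Nat.odd_iff.1 h]
    simp

/-- the sum of the positive terms -/
def pS (L : List (ℕ × ℕ × ℤ)) (u v : ℕ) : ℕ := (L.map (fun t => (1 - tS t u v) * tA t u v)).sum

/-- the sum of the negative terms -/
def nS (L : List (ℕ × ℕ × ℤ)) (u v : ℕ) : ℕ := (L.map (fun t => tS t u v * tA t u v)).sum

lemma eval_eq (L : List (ℕ × ℕ × ℤ)) (u v : ℕ) :
    (L.map (fun t => t.2.2 * toInt u ^ t.1 * toInt v ^ t.2.1)).sum =
      ((pS L u v : ℕ) : ℤ) - ((nS L u v : ℕ) : ℤ) := by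
  induction L with
  | nil => simp [pS, nS]
  | cons t L ih =>
    rw [List.map_cons, List.sum_cons, ih, term_eq]
    have e1 : pS (t :: L) u v = (1 - tS t u v) * tA t u v + pS L u v := by simp [pS]
    have e2 : nS (t :: L) u v = tS t u v * tA t u v + nS L u v := by simp [nS]
    rw [e1, e2]
    push_cast
    ring

lemma eval_zero_iff (L : List (ℕ × ℕ × ℤ)) (u v : ℕ) :
    (L.map (fun t => t.2.2 * toInt u ^ t.1 * toInt v ^ t.2.1)).sum = 0 ↔ pS L u v = nS L u v := by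
  rw [eval_eq, sub_eq_zero]
  exact Nat.cast_inj

lemma sumP_primrec {α : Type*} [Primcodable α] {f : α → ℕ × ℕ × ℤ → ℕ} (hf : Primrec₂ f) :
    Primrec₂ (fun (a : α) (L : List (ℕ × ℕ × ℤ)) => (L.map (f a)).sum) := by
  have h : Primrec (fun q : α × List (ℕ × ℕ × ℤ) => q.2.foldr (fun t s => f q.1 t + s) 0) := by
    apply Primrec.list_foldr
      (h := fun (q : α × List (ℕ × ℕ × ℤ)) (w : (ℕ × ℕ × ℤ) × ℕ) => f q.1 w.1 + w.2)
      Primrec.snd (Primrec.const 0)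
    exact Primrec.nat_add.comp
      (hf.comp (Primrec.fst.comp Primrec.fst) (Primrec.fst.comp Primrec.snd))
      (Primrec.snd.comp Primrec.snd)
  refine Primrec.of_eq h ?_
  rintro ⟨a, L⟩
  induction L with
  | nil => simp
  | cons t L ih => simpa using ih

lemma tA_primrec : Primrec₂ (fun (q : ℕ × ℕ) (t : ℕ × ℕ × ℤ) => tA t q.1 q.2) := by
  unfold tA
  have hu : Primrec (fun w : (ℕ × ℕ) × (ℕ × ℕ × ℤ) => w.1.1 / 2) :=
    Primrec.nat_div.comp (Primrec.fst.comp Primrec.fst) (Primrec.const 2)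
  have hv : Primrec (fun w : (ℕ × ℕ) × (ℕ × ℕ × ℤ) => w.1.2 / 2) :=
    Primrec.nat_div.comp (Primrec.snd.comp Primrec.fst) (Primrec.const 2)
  have hi : Primrec (fun w : (ℕ × ℕ) × (ℕ × ℕ × ℤ) => w.2.1) := Primrec.fst.comp Primrec.snd
  have hj : Primrec (fun w : (ℕ × ℕ) × (ℕ × ℕ × ℤ) => w.2.2.1) :=
    Primrec.fst.comp (Primrec.snd.comp Primrec.snd)
  have hc : Primrec (fun w : (ℕ × ℕ) × (ℕ × ℕ × ℤ) => w.2.2.2.natAbs) :=
    natAbs_primrec.comp (Primrec.snd.comp (Primrec.snd.comp Primrec.snd))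
  exact Primrec.nat_mul.comp hc (Primrec.nat_mul.comp (pow_primrec.comp hu hi)
    (pow_primrec.comp hv hj))

lemma tS_primrec : Primrec₂ (fun (q : ℕ × ℕ) (t : ℕ × ℕ × ℤ) => tS t q.1 q.2) := by
  unfold tS
  have hu : Primrec (fun w : (ℕ × ℕ) × (ℕ × ℕ × ℤ) => w.1.1) := Primrec.fst.comp Primrec.fst
  have hv : Primrec (fun w : (ℕ × ℕ) × (ℕ × ℕ × ℤ) => w.1.2) := Primrec.snd.comp Primrec.fst
  have hi : Primrec (fun w : (ℕ × ℕ) × (ℕ × ℕ × ℤ) => w.2.1) := Primrec.fst.comp Primrec.snd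
  have hj : Primrec (fun w : (ℕ × ℕ) × (ℕ × ℕ × ℤ) => w.2.2.1) :=
    Primrec.fst.comp (Primrec.snd.comp Primrec.snd)
  have hc : Primrec (fun w : (ℕ × ℕ) × (ℕ × ℕ × ℤ) => Encodable.encode w.2.2.2) :=
    Primrec.encode.comp (Primrec.snd.comp (Primrec.snd.comp Primrec.snd))
  exact Primrec.nat_mod.comp (Primrec.nat_add.comp hc (Primrec.nat_add.comp
    (Primrec.nat_mul.comp hu hi) (Primrec.nat_mul.comp hv hj))) (Primrec.const 2)

lemma pS_primrec : Primrec₂ (fun (q : ℕ × ℕ) (L : List (ℕ × ℕ × ℤ)) => pS L q.1 q.2) := by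
  unfold pS
  refine sumP_primrec (f := fun (q : ℕ × ℕ) t => (1 - tS t q.1 q.2) * tA t q.1 q.2) ?_
  exact Primrec.nat_mul.comp (Primrec.nat_sub.comp (Primrec.const 1) tS_primrec) tA_primrec

lemma nS_primrec : Primrec₂ (fun (q : ℕ × ℕ) (L : List (ℕ × ℕ × ℤ)) => nS L q.1 q.2) := by
  unfold nS
  refine sumP_primrec (f := fun (q : ℕ × ℕ) t => tS t q.1 q.2 * tA t q.1 q.2) ?_
  exact Primrec.nat_mul.comp tS_primrec tA_primrec

lemma sL_primrec : Primrec sL := sum_primrec (natAbs_primrec.comp (Primrec.snd.comp Primrec.snd))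

/-- one step: the new value of the bound `b`, after looking at the point with the codes `u`, `v` -/
def stp (C K : ℕ) (L : List (ℕ × ℕ × ℤ)) (u v b : ℕ) : ℕ :=
  if pS L u v = nS L u v ∧ (b * sL L) ^ K < max (u / 2) (v / 2) then max (u / 2) (v / 2) * C else b

lemma stp_primrec (C K : ℕ) : Primrec (fun w : (List (ℕ × ℕ × ℤ) × (ℕ × ℕ)) × ℕ =>
    stp C K w.1.1 w.1.2.1 w.1.2.2 w.2) := by
  unfold stp
  have hL : Primrec (fun w : (List (ℕ × ℕ × ℤ) × (ℕ × ℕ)) × ℕ => w.1.1) :=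
    Primrec.fst.comp Primrec.fst
  have hq : Primrec (fun w : (List (ℕ × ℕ × ℤ) × (ℕ × ℕ)) × ℕ => w.1.2) :=
    Primrec.snd.comp Primrec.fst
  have hb : Primrec (fun w : (List (ℕ × ℕ × ℤ) × (ℕ × ℕ)) × ℕ => w.2) := Primrec.snd
  have hu : Primrec (fun w : (List (ℕ × ℕ × ℤ) × (ℕ × ℕ)) × ℕ => w.1.2.1 / 2) :=
    Primrec.nat_div.comp (Primrec.fst.comp hq) (Primrec.const 2)
  have hv : Primrec (fun w : (List (ℕ × ℕ × ℤ) × (ℕ × ℕ)) × ℕ => w.1.2.2 / 2) :=
    Primrec.nat_div.comp (Primrec.snd.comp hq) (Primrec.const 2)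
  have hm : Primrec (fun w : (List (ℕ × ℕ × ℤ) × (ℕ × ℕ)) × ℕ =>
      max (w.1.2.1 / 2) (w.1.2.2 / 2)) := Primrec.nat_max.comp hu hv
  have hp : Primrec (fun w : (List (ℕ × ℕ × ℤ) × (ℕ × ℕ)) × ℕ => pS w.1.1 w.1.2.1 w.1.2.2) :=
    pS_primrec.comp hq hL
  have hn : Primrec (fun w : (List (ℕ × ℕ × ℤ) × (ℕ × ℕ)) × ℕ => nS w.1.1 w.1.2.1 w.1.2.2) :=
    nS_primrec.comp hq hL
  have h1 : PrimrecPred (fun w : (List (ℕ × ℕ × ℤ) × (ℕ × ℕ)) × ℕ =>
      pS w.1.1 w.1.2.1 w.1.2.2 = nS w.1.1 w.1.2.1 w.1.2.2) := Primrec.eq.comp hp hn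
  have h2 : PrimrecPred (fun w : (List (ℕ × ℕ × ℤ) × (ℕ × ℕ)) × ℕ =>
      (w.2 * sL w.1.1) ^ K < max (w.1.2.1 / 2) (w.1.2.2 / 2)) :=
    Primrec.nat_lt.comp (pow_primrec.comp (Primrec.nat_mul.comp hb (sL_primrec.comp hL))
      (Primrec.const K)) hm
  exact Primrec.ite (h1.and h2) (Primrec.nat_mul.comp hm (Primrec.const C)) hb

/-- the bound after `n` steps -/
def run {P : Type} (C K : ℕ) (c : P → ℕ → List (ℕ × ℕ × ℤ)) (p : P) (n : ℕ) : ℕ :=
  Nat.rec C (fun i b => stp C K (c p i.unpair.1) i.unpair.2.unpair.1 i.unpair.2.unpair.2 b) n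

lemma run_zero {P : Type} (C K : ℕ) (c : P → ℕ → List (ℕ × ℕ × ℤ)) (p : P) :
    run C K c p 0 = C := rfl

lemma run_succ {P : Type} (C K : ℕ) (c : P → ℕ → List (ℕ × ℕ × ℤ)) (p : P) (n : ℕ) :
    run C K c p (n + 1) =
      stp C K (c p n.unpair.1) n.unpair.2.unpair.1 n.unpair.2.unpair.2 (run C K c p n) := rfl

attribute [local irreducible] stp in
lemma run_computable {P : Type} [Primcodable P] (C K : ℕ) (c : P → ℕ → List (ℕ × ℕ × ℤ))
    (hc : Computable₂ c) : Computable₂ (run C K c) := by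
  have h1 : Computable (fun q : P × ℕ => q.2) := Computable.snd
  have h2 : Computable (fun _ : P × ℕ => C) := Computable.const C
  have h3 : Computable₂ (fun (q : P × ℕ) (w : ℕ × ℕ) =>
      stp C K (c q.1 w.1.unpair.1) w.1.unpair.2.unpair.1 w.1.unpair.2.unpair.2 w.2) := by
    have ha : Computable (fun w : (P × ℕ) × (ℕ × ℕ) => c w.1.1 w.2.1.unpair.1) :=
      hc.comp (Computable.fst.comp Computable.fst)
        (Computable.fst.comp (Computable.unpair.comp (Computable.fst.comp Computable.snd)))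
    have hb : Computable (fun w : (P × ℕ) × (ℕ × ℕ) => w.2.1.unpair.2.unpair) :=
      Computable.unpair.comp (Computable.snd.comp
        (Computable.unpair.comp (Computable.fst.comp Computable.snd)))
    have hd : Computable (fun w : (P × ℕ) × (ℕ × ℕ) => w.2.2) := Computable.snd.comp Computable.snd
    have h : Computable (fun w : (P × ℕ) × (ℕ × ℕ) =>
        stp C K (c w.1.1 w.2.1.unpair.1) w.2.1.unpair.2.unpair.1 w.2.1.unpair.2.unpair.2 w.2.2) := by
      have h0 := (stp_primrec C K).to_comp.comp (Computable.pair (Computable.pair ha hb) hd)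
      exact h0
    exact h
  have h4 := Computable.nat_rec h1 h2 h3
  exact h4

end Pool.Agent.V11270.SI
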