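import Pool.Agent.Y910.A.A11
import Pool.Agent.W571.ESG.C456

/-!
# Trial and error: large points and changes of the bound

Abstract form: a sequence of points with the repulsion property, and the bound which is replaced whenever
a point beats it. The number of changes is at most the number of the real fields involved.
-/

set_option autoImplicit false

open IntermediateField

namespace Pool.Agent.V11270.SI

open Pool.Agent.Y910.A

/-- degrees of composita: if `M` and `M'` are not almost linearly disjoint, neither are larger fields -/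
lemma close_mono {M M' K₁ K₂ : IntermediateField ℚ ℝ} (h₁ : M ≤ K₁) (h₂ : M' ≤ K₂)
    (f₁ : FiniteDimensional ℚ K₁) (f₂ : FiniteDimensional ℚ K₂)
    (h : 3 * Module.finrank ℚ ↥(M ⊔ M') ≤ Module.finrank ℚ M * Module.finrank ℚ M') :
    3 * Module.finrank ℚ ↥(K₁ ⊔ K₂) ≤ Module.finrank ℚ K₁ * Module.finrank ℚ K₂ := by
  have fM : FiniteDimensional ℚ M :=
    FiniteDimensional.of_injective (IntermediateField.inclusion h₁).toLinearMap
      (IntermediateField.inclusion h₁).toRingHom.injective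
  have fM' : FiniteDimensional ℚ M' :=
    FiniteDimensional.of_injective (IntermediateField.inclusion h₂).toLinearMap
      (IntermediateField.inclusion h₂).toRingHom.injective
  have fS : FiniteDimensional ℚ ↥(M ⊔ M') := IntermediateField.finiteDimensional_sup M M'
  have fA : FiniteDimensional ℚ ↥(K₁ ⊔ M') := IntermediateField.finiteDimensional_sup K₁ M'
  have fB : FiniteDimensional ℚ ↥(K₂ ⊔ M) := IntermediateField.finiteDimensional_sup K₂ M
  have a1 := Pool.Agent.W571.ESG.main_fld M K₁ (M ⊔ M') h₁ le_sup_left f₁ fS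
  have a2 := Pool.Agent.W571.ESG.main_fld M' K₂ (M ⊔ M') h₂ le_sup_right f₂ fS
  have a3 := Pool.Agent.W571.ESG.main_fld (M ⊔ M') (K₁ ⊔ M') (K₂ ⊔ M)
    (sup_le (h₁.trans le_sup_left) le_sup_right) (sup_le le_sup_right (h₂.trans le_sup_left)) fA fB
  have e1 : K₁ ⊔ (M ⊔ M') = K₁ ⊔ M' := by rw [← sup_assoc, sup_eq_left.2 h₁]
  have e2 : K₂ ⊔ (M ⊔ M') = K₂ ⊔ M := by
    rw [sup_comm M M', ← sup_assoc, sup_eq_left.2 h₂]
  have e3 : K₁ ⊔ M' ⊔ (K₂ ⊔ M) = K₁ ⊔ K₂ := by
    apply le_antisymm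
    · exact sup_le (sup_le le_sup_left (h₂.trans le_sup_right))
        (sup_le le_sup_right (h₁.trans le_sup_left))
    · exact sup_le (le_sup_left.trans le_sup_left) (le_sup_left.trans le_sup_right)
  rw [e1] at a1
  rw [e2] at a2
  rw [e3] at a3
  have hp : 0 < Module.finrank ℚ ↥(M ⊔ M') := Module.finrank_pos
  obtain ⟨s, hs⟩ : ∃ s, s = Module.finrank ℚ ↥(M ⊔ M') := ⟨_, rfl⟩
  obtain ⟨a, ha⟩ : ∃ a, a = Module.finrank ℚ ↥(K₁ ⊔ M') := ⟨_, rfl⟩
  obtain ⟨b, hb⟩ : ∃ b, b = Module.finrank ℚ ↥(K₂ ⊔ M) := ⟨_, rfl⟩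
  obtain ⟨t, ht⟩ : ∃ t, t = Module.finrank ℚ ↥(K₁ ⊔ K₂) := ⟨_, rfl⟩
  obtain ⟨x, hx⟩ : ∃ x, x = Module.finrank ℚ M := ⟨_, rfl⟩
  obtain ⟨y, hy⟩ : ∃ y, y = Module.finrank ℚ M' := ⟨_, rfl⟩
  obtain ⟨u, hu⟩ : ∃ u, u = Module.finrank ℚ K₁ := ⟨_, rfl⟩
  obtain ⟨v, hv⟩ : ∃ v, v = Module.finrank ℚ K₂ := ⟨_, rfl⟩
  rw [← hs, ← ha, ← hx, ← hu] at a1
  rw [← hs, ← hb, ← hy, ← hv] at a2
  rw [← hs, ← ha, ← hb, ← ht] at a3
  rw [← hs, ← hx, ← hy] at h
  rw [← hs] at hp
  rw [← ht, ← hu, ← hv]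
  -- t s x y ≤ a b x y ≤ u v s s
  have h1 : t * s * (x * y) ≤ (u * v) * (s * s) := by
    calc t * s * (x * y) ≤ a * b * (x * y) := Nat.mul_le_mul_right _ a3
      _ = (a * x) * (b * y) := by ring
      _ ≤ (u * s) * (v * s) := Nat.mul_le_mul a1 a2
      _ = _ := by ring
  have h2 : (3 * t) * (s * s) ≤ (u * v) * (s * s) := by
    calc (3 * t) * (s * s) = t * s * (3 * s) := by ring
      _ ≤ t * s * (x * y) := Nat.mul_le_mul_left _ h
      _ ≤ _ := h1
  exact Nat.le_of_mul_le_mul_right h2 (Nat.mul_pos hp hp)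

/-- `M` and `M'` are almost linearly disjoint -/
def Far (M M' : IntermediateField ℚ ℝ) : Prop :=
  Module.finrank ℚ M * Module.finrank ℚ M' < 3 * Module.finrank ℚ ↥(M ⊔ M')

theorem core (C : ℕ) (hC : 2 ≤ C) : ∃ K : ℕ, 1 ≤ K ∧
    ∀ (S : Set (IntermediateField ℚ ℝ)), (∀ M ∈ S, 3 ≤ Module.finrank ℚ M) →
    ∀ (z : ℕ → Prop) (m l : ℕ → ℕ), (∀ n, z n → 1 ≤ l n) →
    (∀ n, z n → m n ≤ (C * l n) ^ C ∨ ∃ M ∈ S, ∃ K' : IntermediateField ℚ ℝ, M ≤ K' ∧
      Near C ((C * l n : ℕ) : ℝ) ((m n : ℕ) : ℝ) K') →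
    ∀ b : ℕ → ℕ, b 0 = C →
    (∀ n, z n ∧ (b n * l n) ^ K < m n → b (n + 1) = m n * C) →
    (∀ n, ¬ (z n ∧ (b n * l n) ^ K < m n) → b (n + 1) = b n) →
    Monotone b ∧ (∃ T ⊆ S, T.Pairwise Far ∧ {n | b n ≠ b (n + 1)}.encard ≤ T.encard) ∧
      (S.Finite → ∃ n₀, ∀ n, n₀ ≤ n → ∀ i, z i → m i ≤ (b n * l i) ^ K) := by
  obtain ⟨K₀, hK₀⟩ := repel_near C
  refine ⟨K₀ + C + 1, by omega, ?_⟩
  intro S hS z m l hl hnear b hb0 hb1 hb2
  obtain ⟨K, hK⟩ : ∃ K, K = K₀ + C + 1 := ⟨_, rfl⟩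
  rw [← hK] at hb1 hb2 ⊢
  have hstep : ∀ n, C ≤ b n → z n ∧ (b n * l n) ^ K < m n → b n < m n := by
    intro n hn h
    have h1 : 1 ≤ l n := hl n h.1
    have h2 : b n ≤ b n * l n := Nat.le_mul_of_pos_right _ (by omega)
    have h3 : b n * l n ≤ (b n * l n) ^ K := Nat.le_self_pow (by omega) _
    omega
  have hbC : ∀ n, C ≤ b n := by
    intro n
    induction n with
    | zero => omega
    | succ n ih =>
      by_cases h : z n ∧ (b n * l n) ^ K < m n
      · rw [hb1 n h]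
        have h1 := hstep n ih h
        have : 1 ≤ m n := by omega
        exact Nat.le_mul_of_pos_left _ (by omega)
      · rw [hb2 n h]
        exact ih
  have hlt : ∀ n, z n ∧ (b n * l n) ^ K < m n → b n < b (n + 1) := by
    intro n h
    rw [hb1 n h]
    have h1 := hstep n (hbC n) h
    exact lt_of_lt_of_le h1 (Nat.le_mul_of_pos_right _ (by omega))
  have hmono : Monotone b := by
    refine monotone_nat_of_le_succ fun n => ?_
    by_cases h : z n ∧ (b n * l n) ^ K < m n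
    · exact (hlt n h).le
    · rw [hb2 n h]
  have hD : {n | b n ≠ b (n + 1)} = {n | z n ∧ (b n * l n) ^ K < m n} := by
    ext n
    simp only [Set.mem_ofPred_eq]
    constructor
    · intro h
      by_contra hcon
      exact h (hb2 n hcon).symm
    · intro h
      exact (hlt n h).ne
  have hchoose : ∀ n, z n ∧ (b n * l n) ^ K < m n → ∃ M ∈ S, ∃ K' : IntermediateField ℚ ℝ,
      M ≤ K' ∧ Near C ((C * l n : ℕ) : ℝ) ((m n : ℕ) : ℝ) K' := by
    intro n h
    rcases hnear n h.1 with h1 | h1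
    · exfalso
      have h2 : 1 ≤ l n := hl n h.1
      have h3 : (C * l n) ^ C ≤ (b n * l n) ^ K := by
        refine (Nat.pow_le_pow_left (Nat.mul_le_mul_right _ (hbC n)) _).trans
          (Nat.pow_le_pow_right (Nat.mul_pos (by have := hbC n; omega) h2) (by omega))
      omega
    · exact h1
  choose! M hM K' hMK hN using hchoose
  have hfar : ∀ n n', n < n' → (z n ∧ (b n * l n) ^ K < m n) → (z n' ∧ (b n' * l n') ^ K < m n') →
      Far (M n) (M n') := by
    intro n n' hnn h h'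
    by_contra he
    have he' : 3 * Module.finrank ℚ ↥(M n ⊔ M n') ≤
        Module.finrank ℚ (M n) * Module.finrank ℚ (M n') := not_lt.1 he
    have hfd : FiniteDimensional ℚ (K' n) := by
      obtain ⟨N, r, _, _, _, _, hnf, _⟩ := hN n h
      exact hnf.to_finiteDimensional
    have hfd' : FiniteDimensional ℚ (K' n') := by
      obtain ⟨N, r, _, _, _, _, hnf, _⟩ := hN n' h'
      exact hnf.to_finiteDimensional
    have h3 : 3 * Module.finrank ℚ ↥(K' n ⊔ K' n')
        ≤ Module.finrank ℚ (K' n) * Module.finrank ℚ (K' n') :=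
      close_mono (hMK n h) (hMK n' h') hfd hfd' he'
    have hl1 : 1 ≤ l n := hl n h.1
    have hl2 : 1 ≤ l n' := hl n' h'.1
    have hCl1 : 2 ≤ C * l n := hC.trans (Nat.le_mul_of_pos_right _ (by omega))
    have hCl2 : 2 ≤ C * l n' := hC.trans (Nat.le_mul_of_pos_right _ (by omega))
    have hbig : (C * l n) ^ K₀ < m n := by
      refine lt_of_le_of_lt ?_ h.2
      exact (Nat.pow_le_pow_left (Nat.mul_le_mul_right _ (hbC n)) _).trans
        (Nat.pow_le_pow_right (Nat.mul_pos (by have := hbC n; omega) hl1) (by omega))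
    have hres := hK₀ (by exact_mod_cast hCl1) (by exact_mod_cast hCl2) (hN n h)
      (by exact_mod_cast hbig) (hN n' h') h3
    have hres' : m n' ≤ (m n * (C * l n')) ^ K₀ := by exact_mod_cast hres
    have h4 : m n * C ≤ b n' := by
      rw [← hb1 n h]
      exact hmono (by omega)
    have h5 : (m n * (C * l n')) ^ K₀ ≤ (b n' * l n') ^ K := by
      refine (Nat.pow_le_pow_left ?_ _).trans
        (Nat.pow_le_pow_right (Nat.mul_pos (by have := hbC n'; omega) hl2) (by omega))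
      rw [← mul_assoc]
      exact Nat.mul_le_mul_right _ h4
    have := h'.2
    omega
  have hself : ∀ n, (z n ∧ (b n * l n) ^ K < m n) → ¬ Far (M n) (M n) := by
    intro n h hf
    unfold Far at hf
    rw [sup_idem] at hf
    have h1 := hS _ (hM n h)
    have h2 : 3 * Module.finrank ℚ (M n) ≤ Module.finrank ℚ (M n) * Module.finrank ℚ (M n) :=
      Nat.mul_le_mul_right _ h1
    omega
  have hInj : Set.InjOn M {n | z n ∧ (b n * l n) ^ K < m n} := by
    intro n hn n' hn' he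
    rcases lt_trichotomy n n' with h | h | h
    · have h1 := hfar n n' h hn hn'
      rw [← he] at h1
      exact absurd h1 (hself n hn)
    · exact h
    · have h1 := hfar n' n h hn' hn
      rw [he] at h1
      exact absurd h1 (hself n' hn')
  have hcardT : {n | z n ∧ (b n * l n) ^ K < m n}.encard ≤
      (M '' {n | z n ∧ (b n * l n) ^ K < m n}).encard := by
    rw [hInj.encard_image]
  have hpair : (M '' {n | z n ∧ (b n * l n) ^ K < m n}).Pairwise Far := by
    rintro _ ⟨n, hn, rfl⟩ _ ⟨n', hn', rfl⟩ hne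
    rcases lt_trichotomy n n' with h | h | h
    · exact hfar n n' h hn hn'
    · exact absurd (by rw [h]) hne
    · have h1 := hfar n' n h hn' hn
      unfold Far at h1 ⊢
      rwa [mul_comm, sup_comm]
  have hcard : {n | z n ∧ (b n * l n) ^ K < m n}.encard ≤ S.encard :=
    Set.encard_le_encard_of_injOn (fun n hn => hM n hn) hInj
  refine ⟨hmono, ⟨M '' {n | z n ∧ (b n * l n) ^ K < m n}, ?_, hpair, by rw [hD]; exact hcardT⟩, ?_⟩
  · rintro _ ⟨n, hn, rfl⟩
    exact hM n hn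
  intro hSf
  have hDf : {n | z n ∧ (b n * l n) ^ K < m n}.Finite := by
    rw [← Set.encard_lt_top_iff] at hSf ⊢
    exact lt_of_le_of_lt hcard hSf
  obtain ⟨n₀, hn₀⟩ := hDf.bddAbove
  refine ⟨n₀ + 1, fun n hn i hi => ?_⟩
  have hconst : ∀ j, n₀ + 1 ≤ j → b j = b (n₀ + 1) := by
    intro j hj
    induction j with
    | zero => omega
    | succ j ih =>
      rcases Nat.lt_or_ge j (n₀ + 1) with h | h
      · have : j + 1 = n₀ + 1 := by omega
        rw [this]
      · have h1 : ¬ (z j ∧ (b j * l j) ^ K < m j) := by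
          intro h2
          have := hn₀ h2
          omega
        rw [hb2 j h1]
        exact ih h
  have hle : ∀ j, b j ≤ b n := by
    intro j
    rcases Nat.lt_or_ge j (n₀ + 1) with h | h
    · exact hmono (by omega)
    · rw [hconst j h, hconst n hn]
  by_contra hcon
  push Not at hcon
  have hl1 : 1 ≤ l i := hl i hi
  have h1 : z i ∧ (b i * l i) ^ K < m i :=
    ⟨hi, lt_of_le_of_lt (Nat.pow_le_pow_left (Nat.mul_le_mul_right _ (hle i)) _) hcon⟩
  have h2 := hb1 i h1
  have h3 := hle (i + 1)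
  have h4 : m i ≤ m i * C := Nat.le_mul_of_pos_right _ (by omega)
  have h5 : b n ≤ b n * l i := Nat.le_mul_of_pos_right _ (by omega)
  have h6 : b n * l i ≤ (b n * l i) ^ K := Nat.le_self_pow (by omega) _
  omega

end Pool.Agent.V11270.SI
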