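import Pool.Agent.V11270.SI.Core
import Pool.Agent.V11270.SI.Comp

/-!
# Trial and error: the curves

The residue field of the place at infinity and the fields near which large integer points lie.
-/

set_option autoImplicit false

open IntermediateField

namespace Pool.Agent.V11270.SI

open Pool.Agent.Y910.A Pool.Agent.H322R2

/-- The coordinate ring over `ℚ` of the affine plane curve `F = 0`. -/
abbrev CoordRing (F : MvPolynomial (Fin 2) ℤ) : Type :=
  MvPolynomial (Fin 2) ℚ ⧸ Ideal.span {MvPolynomial.map (Int.castRingHom ℚ) F}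

/-- `A` is a place at infinity of the curve `F = 0`. -/
def AtInfinity (F : MvPolynomial (Fin 2) ℤ) (E : Type) [Field E] [Algebra (CoordRing F) E]
    (A : ValuationSubring E) : Prop :=
  (∀ q : ℚ, algebraMap (CoordRing F) E (algebraMap ℚ (CoordRing F) q) ∈ A) ∧
    ∃ i : Fin 2, algebraMap (CoordRing F) E (Ideal.Quotient.mk _ (MvPolynomial.X i)) ∉ A

/-- If there is exactly one place at infinity, then its residue field contains a copy of `k`. -/
def Admits (k : Type) [Field k] (F : MvPolynomial (Fin 2) ℤ) : Prop :=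
  ∀ (E : Type) [Field E] [Algebra (CoordRing F) E] [IsFractionRing (CoordRing F) E]
    (A : ValuationSubring E), (∀ A' : ValuationSubring E, AtInfinity F E A' ↔ A' = A) →
      Nonempty (k →+* IsLocalRing.ResidueField A)

/-- The images of the real embeddings of `k`. -/
def realImages (k : Type) [Field k] : Set (IntermediateField ℚ ℝ) :=
  {M | ∃ φ : k →+* ℝ, (M : Set ℝ) = Set.range φ}

lemma realImages_finite (k : Type) [Field k] [NumberField k] : (realImages k).Finite := by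
  have h : Finite (k →+* ℝ) := inferInstance
  refine Set.Finite.subset (Set.finite_range (fun φ : k →+* ℝ => (φ.toRatAlgHom).fieldRange)) ?_
  rintro M ⟨φ, hφ⟩
  refine ⟨φ, ?_⟩
  apply SetLike.coe_injective
  rw [hφ, AlgHom.coe_fieldRange]
  rfl

lemma realImages_finrank (k : Type) [Field k] [NumberField k] (M : IntermediateField ℚ ℝ)
    (hM : M ∈ realImages k) : Module.finrank ℚ M = Module.finrank ℚ k := by
  obtain ⟨φ, hφ⟩ := hM
  obtain ⟨f, hf⟩ : ∃ f : k →ₐ[ℚ] ℝ, f = φ.toRatAlgHom := ⟨_, rfl⟩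
  have hfφ : ∀ x, f x = φ x := fun x => by rw [hf]; rfl
  have hmem : ∀ x, f x ∈ M.toSubalgebra := by
    intro x
    have : f x ∈ (M : Set ℝ) := by
      rw [hφ, hfφ]
      exact Set.mem_range_self x
    exact this
  obtain ⟨ψ, hψ⟩ : ∃ ψ : k →ₐ[ℚ] M.toSubalgebra, ψ = f.codRestrict M.toSubalgebra hmem := ⟨_, rfl⟩
  have hinj : Function.Injective ψ := ψ.toRingHom.injective
  have hsurj : Function.Surjective ψ := by
    rintro ⟨y, hy⟩
    have h1 : y ∈ (M : Set ℝ) := hy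
    rw [hφ] at h1
    obtain ⟨x, hx⟩ := h1
    refine ⟨x, ?_⟩
    apply Subtype.ext
    rw [hψ, AlgHom.coe_codRestrict, hfφ]
    exact hx
  have h2 := (LinearEquiv.ofBijective ψ.toLinearMap ⟨hinj, hsurj⟩).finrank_eq
  exact h2.symm

/-- a Galois field has at most one real image -/
lemma realImages_galois (k : Type) [Field k] [NumberField k] [IsGalois ℚ k] :
    (realImages k).Subsingleton := by
  rintro M ⟨φ, hφ⟩ M' ⟨φ', hφ'⟩
  apply SetLike.coe_injective
  rw [hφ, hφ']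
  have key : ∀ f g : k →ₐ[ℚ] ℝ, f.fieldRange ≤ g.fieldRange := by
    intro f g
    have e : k ≃ₐ[ℚ] g.fieldRange := AlgEquiv.ofInjectiveField g
    have hn : @Normal ℚ g.fieldRange _ _ (IntermediateField.algebra' g.fieldRange) :=
      Normal.of_algEquiv e
    have h1 := @AlgHom.fieldRange_of_normal ℚ ℝ _ _ _ g.fieldRange hn (f.comp e.symm.toAlgHom)
    rw [← h1]
    rintro y ⟨x, rfl⟩
    refine ⟨e x, ?_⟩
    show f (e.symm (e x)) = f x
    rw [e.symm_apply_apply]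
  have h2 := le_antisymm (key φ.toRatAlgHom φ'.toRatAlgHom) (key φ'.toRatAlgHom φ.toRatAlgHom)
  have h3 := congrArg (fun A : IntermediateField ℚ ℝ => (A : Set ℝ)) h2
  exact h3

lemma point_aux {C : ℕ} {F : MvPolynomial (Fin 2) ℤ} {m : ℕ} {k : Type} [Field k]
    (hk : Admits k F) (E : Type) [Field E] [Algebra ℚ E]
    (π : MvPolynomial (Fin 2) ℚ →ₐ[ℚ] E)
    [Algebra (CoordRing F) E] [IsFractionRing (CoordRing F) E]
    (hπ : ∀ w, π w = algebraMap (CoordRing F) E (Ideal.Quotient.mk _ w))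
    (hQ : ∀ q : ℚ, algebraMap ℚ E q = algebraMap (CoordRing F) E (algebraMap ℚ (CoordRing F) q))
    (g : Polynomial ℚ) (hg : OnePlace π g) (η : ℝ) (hη : Polynomial.aeval η g = 0)
    (l : ℕ) (hn : Near C (l : ℝ) (m : ℝ) ℚ⟮η⟯) :
    ∃ M ∈ realImages k, ∃ K' : IntermediateField ℚ ℝ, M ≤ K' ∧ Near C (l : ℝ) (m : ℝ) K' := by
  obtain ⟨A, hA, hm, hi, ⟨e⟩⟩ := hg
  have hA' : ∀ A' : ValuationSubring E, AtInfinity F E A' ↔ A' = A := by
    intro A'
    rw [← hA A', AtInfinity]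
    refine and_congr ?_ ?_
    · exact forall_congr' fun q => by rw [hQ q]
    · rw [Fin.exists_fin_two, hπ, hπ]
      tauto
  obtain ⟨ι⟩ := hk E A hA'
  have hη' : g.eval₂ (algebraMap ℚ ℝ) η = 0 := by
    rw [← Polynomial.aeval_def]
    exact hη
  obtain ⟨lam, hlam⟩ : ∃ lam : AdjoinRoot g →+* ℝ, lam = AdjoinRoot.lift (algebraMap ℚ ℝ) η hη' :=
    ⟨_, rfl⟩
  obtain ⟨φ, hφ⟩ : ∃ φ : k →+* ℝ, φ = (lam.comp (e : IsLocalRing.ResidueField A →+* AdjoinRoot g)).comp ι :=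
    ⟨_, rfl⟩
  have hchar : CharZero k := by
    refine ⟨fun a b hab => ?_⟩
    have h1 : φ (a : k) = φ (b : k) := by rw [hab]
    rw [map_natCast, map_natCast] at h1
    exact_mod_cast h1
  have hval : ∀ x, φ x ∈ ℚ⟮η⟯ := by
    intro x
    have h1 : φ x = lam (e (ι x)) := by rw [hφ]; rfl
    rw [h1]
    obtain ⟨p, hp⟩ := AdjoinRoot.mk_surjective (e (ι x))
    rw [← hp, hlam, AdjoinRoot.lift_mk, ← Polynomial.aeval_def]
    exact IntermediateField.algebra_adjoin_le_adjoin ℚ {η} (Polynomial.aeval_mem_adjoin_singleton ℚ η)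
  refine ⟨(φ.toRatAlgHom).fieldRange, ⟨φ, ?_⟩, ℚ⟮η⟯, ?_, hn⟩
  · rw [AlgHom.coe_fieldRange]
    rfl
  · rintro y ⟨x, rfl⟩
    exact hval x

lemma point (C d : ℕ) (hC2 : 2 ≤ C) (hC : ∀ F : MvPolynomial (Fin 2) ℤ, F.totalDegree ≤ d →
    Irreducible (MvPolynomial.map (Int.castRingHom ℚ) F) →
    ∀ (L : Type) [Field L] [Algebra ℚ L] (π : MvPolynomial (Fin 2) ℚ →ₐ[ℚ] L),
    (∀ w, π w = 0 ↔ MvPolynomial.map (Int.castRingHom ℚ) F ∣ w) →
    (∀ z : L, ∃ w1 w2, π w2 ≠ 0 ∧ π w2 * z = π w1) →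
    ∀ x y : ℤ, MvPolynomial.eval ![x, y] F = 0 →
      max x.natAbs y.natAbs ≤ (C * len F) ^ C ∨
      ∃ g : Polynomial ℚ, OnePlace π g ∧ ∃ η : ℝ, Polynomial.aeval η g = 0 ∧
        Near C (((C * len F : ℕ) : ℝ)) (((max x.natAbs y.natAbs : ℕ) : ℝ)) ℚ⟮η⟯)
    (F : MvPolynomial (Fin 2) ℤ) (hd : F.totalDegree ≤ d)
    (hirr : Irreducible (MvPolynomial.map (Int.castRingHom ℚ) F)) (k : Type) [Field k]
    (hk : Admits k F) (x y : ℤ) (hxy : MvPolynomial.eval ![x, y] F = 0) (s : ℕ) (hs : len F ≤ s) :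
    max x.natAbs y.natAbs ≤ (C * s) ^ C ∨ ∃ M ∈ realImages k, ∃ K' : IntermediateField ℚ ℝ,
      M ≤ K' ∧ Near C ((C * s : ℕ) : ℝ) ((max x.natAbs y.natAbs : ℕ) : ℝ) K' := by
  have hprime : (Ideal.span {MvPolynomial.map (Int.castRingHom ℚ) F}).IsPrime :=
    (Ideal.span_singleton_prime hirr.ne_zero).2 hirr.prime
  have hdom : IsDomain (CoordRing F) := Ideal.Quotient.isDomain _
  obtain ⟨E, hE⟩ : ∃ E, E = FractionRing (CoordRing F) := ⟨_, rfl⟩
  let _ : Algebra ℚ (FractionRing (CoordRing F)) :=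
    ((algebraMap (CoordRing F) (FractionRing (CoordRing F))).comp
      (algebraMap ℚ (CoordRing F))).toAlgebra
  obtain ⟨π, hπ⟩ : ∃ π : MvPolynomial (Fin 2) ℚ →ₐ[ℚ] FractionRing (CoordRing F), ∀ w, π w
      = algebraMap (CoordRing F) (FractionRing (CoordRing F)) (Ideal.Quotient.mk _ w) :=
    ⟨{ toRingHom := (algebraMap (CoordRing F) (FractionRing (CoordRing F))).comp
        (Ideal.Quotient.mk _)
       commutes' := fun q => rfl }, fun w => rfl⟩
  have hker : ∀ w, π w = 0 ↔ MvPolynomial.map (Int.castRingHom ℚ) F ∣ w := by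
    intro w
    rw [hπ, IsFractionRing.to_map_eq_zero_iff, Ideal.Quotient.eq_zero_iff_mem,
      Ideal.mem_span_singleton]
  have hsurj : ∀ z : FractionRing (CoordRing F), ∃ w1 w2, π w2 ≠ 0 ∧ π w2 * z = π w1 := by
    intro z
    obtain ⟨a, b, hb, hz⟩ := IsFractionRing.div_surjective (A := CoordRing F) z
    obtain ⟨w1, rfl⟩ := Ideal.Quotient.mk_surjective a
    obtain ⟨w2, rfl⟩ := Ideal.Quotient.mk_surjective b
    have hne : π w2 ≠ 0 := by
      rw [hπ]
      exact IsFractionRing.to_map_ne_zero_of_mem_nonZeroDivisors hb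
    refine ⟨w1, w2, hne, ?_⟩
    rw [← hz, ← hπ, ← hπ]
    field_simp
  have hF0 : F ≠ 0 := by
    rintro rfl
    rw [map_zero] at hirr
    exact hirr.ne_zero rfl
  have hlen : 1 ≤ len F := len_pos hF0
  rcases hC F hd hirr (FractionRing (CoordRing F)) π hker hsurj x y hxy with h | ⟨g, hg, η, hη, hn⟩
  · left
    exact h.trans (Nat.pow_le_pow_left (Nat.mul_le_mul_left _ hs) _)
  · right
    have h1 : (1 : ℝ) ≤ ((C * len F : ℕ) : ℝ) := by
      have : 1 ≤ C * len F := Nat.mul_pos (by omega) hlen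
      exact_mod_cast this
    have h2 : ((C * len F : ℕ) : ℝ) ≤ ((C * s : ℕ) : ℝ) := by
      exact_mod_cast Nat.mul_le_mul_left C hs
    have hn' := hn.mono h1 h2 (Nat.cast_nonneg _) (le_refl C)
    exact point_aux hk (FractionRing (CoordRing F)) π hπ (fun q => rfl) g hg η hη (C * s) hn'

/-- **Trial and error.** -/
theorem main (d : ℕ) : ∃ K : ℕ, ∀ (P : Type) [Primcodable P] (c : P → ℕ → List (ℕ × ℕ × ℤ)),
    Computable₂ c → ∃ G : P → ℕ → ℕ, Computable₂ G ∧ ∀ (p : P) (k : Type) [Field k]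
      [NumberField k], 3 ≤ Module.finrank ℚ k →
      (∀ j, (polyL (c p j)).totalDegree ≤ d ∧
        Irreducible (MvPolynomial.map (Int.castRingHom ℚ) (polyL (c p j))) ∧
        Admits k (polyL (c p j))) →
      Monotone (G p) ∧ (∃ T ⊆ realImages k, T.Pairwise Far ∧
        {n | G p n ≠ G p (n + 1)}.encard ≤ T.encard) ∧
      ∃ n₀, ∀ n, n₀ ≤ n → ∀ (j : ℕ) (x y : ℤ),
        ((c p j).map (fun t => t.2.2 * x ^ t.1 * y ^ t.2.1)).sum = 0 →
        max x.natAbs y.natAbs ≤ (G p n * ((c p j).map (fun t => t.2.2.natAbs)).sum) ^ K := by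
  obtain ⟨C, hC2, hC⟩ := struct_le d
  obtain ⟨K, hK1, hK⟩ := core C hC2
  refine ⟨K, ?_⟩
  intro P _ c hc
  refine ⟨run C K c, run_computable C K c hc, ?_⟩
  intro p k _ _ hk3 hcurves
  obtain ⟨z, hz⟩ : ∃ z : ℕ → Prop, z = fun n => pS (c p n.unpair.1) n.unpair.2.unpair.1
      n.unpair.2.unpair.2 = nS (c p n.unpair.1) n.unpair.2.unpair.1 n.unpair.2.unpair.2 :=
    ⟨_, rfl⟩
  obtain ⟨m, hm⟩ : ∃ m : ℕ → ℕ, m = fun n => max (n.unpair.2.unpair.1 / 2)
      (n.unpair.2.unpair.2 / 2) := ⟨_, rfl⟩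
  obtain ⟨l, hl⟩ : ∃ l : ℕ → ℕ, l = fun n => sL (c p n.unpair.1) := ⟨_, rfl⟩
  have hlpos : ∀ j, 1 ≤ sL (c p j) := by
    intro j
    refine le_trans (len_pos ?_) (len_polyL (c p j))
    intro h0
    have := (hcurves j).2.1
    rw [h0, map_zero] at this
    exact this.ne_zero rfl
  have hres := hK (realImages k) (fun M hM => by rw [realImages_finrank k M hM]; exact hk3) z m l
    (fun n _ => by rw [hl]; exact hlpos _) (by
      intro n hzn
      rw [hz] at hzn
      rw [hm, hl]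
      have h1 := (eval_zero_iff (c p n.unpair.1) n.unpair.2.unpair.1 n.unpair.2.unpair.2).2 hzn
      rw [← eval_polyL] at h1
      have h2 := point C d hC2 hC (polyL (c p n.unpair.1)) (hcurves _).1 (hcurves _).2.1 k
        (hcurves _).2.2 _ _ h1 (sL (c p n.unpair.1)) (len_polyL _)
      rw [natAbs_toInt, natAbs_toInt] at h2
      exact h2)
    (run C K c p) (run_zero C K c p) (by
      intro n h
      rw [hz, hm, hl] at h
      rw [run_succ, stp, if_pos h, hm]) (by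
      intro n h
      rw [hz, hm, hl] at h
      rw [run_succ, stp, if_neg h])
  obtain ⟨h1, h2, h3⟩ := hres
  refine ⟨h1, h2, ?_⟩
  obtain ⟨n₀, hn₀⟩ := h3 (realImages_finite k)
  refine ⟨n₀, fun n hn j x y hxy => ?_⟩
  obtain ⟨u, rfl⟩ := toInt_surj x
  obtain ⟨v, rfl⟩ := toInt_surj y
  have h4 := hn₀ n hn (Nat.pair j (Nat.pair u v)) (by
    rw [hz]
    simp only [Nat.unpair_pair]
    exact (eval_zero_iff _ _ _).1 hxy)
  rw [hm, hl] at h4
  simp only [Nat.unpair_pair] at h4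
  rw [natAbs_toInt, natAbs_toInt]
  exact h4

end Pool.Agent.V11270.SI
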