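import Pool.Agent.V11270.SI.Curve
import Pool.Agent.H322R2.FMir

/-!
# Trial and error: equations with an irreducible top form

If the form of degree `d` of `F` is irreducible over `ℚ`, then the residue fields of all places at infinity of
the curve `F = 0` contain the field generated by a root of `F_d(T, 1)`.
-/

set_option autoImplicit false

open Polynomial IntermediateField

namespace Pool.Agent.V11270.SI

open Pool.Agent.Y910.A Pool.Agent.H322R2

/-- homogeneous evaluation -/
lemma hom_eval {S : Type*} [CommRing S] (ι : ℚ →+* S) (P : MvPolynomial (Fin 2) ℚ) (d : ℕ)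
    (hP : P.totalDegree ≤ d) (a b s x y : S) (hx : s * x = a) (hy : s * y = b) :
    s ^ d * MvPolynomial.eval₂ ι ![x, y] P =
      ∑ n ∈ P.support, ι (P.coeff n) * s ^ (d - (n 0 + n 1)) * (a ^ (n 0) * b ^ (n 1)) := by
  rw [MvPolynomial.eval₂_eq', Finset.mul_sum]
  apply Finset.sum_congr rfl
  intro n hn
  have h1 : n 0 + n 1 ≤ d := by
    have h2 := (MvPolynomial.le_totalDegree hn).trans hP
    rwa [Finsupp.sum_fintype _ _ (fun _ => rfl), Fin.sum_univ_two] at h2
  rw [Fin.prod_univ_two]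
  simp only [Matrix.cons_val_zero, Matrix.cons_val_one]
  rw [← hx, ← hy]
  have h3 : s ^ d = s ^ (d - (n 0 + n 1)) * (s ^ (n 0) * s ^ (n 1)) := by
    rw [← pow_add, ← pow_add]
    congr 1
    omega
  rw [h3]
  ring

/-- the top form at `s = 0` -/
lemma hom_eval_zero {S : Type*} [CommRing S] (ι : ℚ →+* S) (P : MvPolynomial (Fin 2) ℚ) (d : ℕ)
    (hP : P.totalDegree ≤ d) (a b : S) :
    ∑ n ∈ P.support, ι (P.coeff n) * (0 : S) ^ (d - (n 0 + n 1)) * (a ^ (n 0) * b ^ (n 1))
      = MvPolynomial.eval₂ ι ![a, b] (MvPolynomial.homogeneousComponent d P) := by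
  rw [MvPolynomial.homogeneousComponent_apply, MvPolynomial.eval₂_sum, Finset.sum_filter]
  apply Finset.sum_congr rfl
  intro n hn
  have h1 : n 0 + n 1 ≤ d := by
    have h2 := (MvPolynomial.le_totalDegree hn).trans hP
    rwa [Finsupp.sum_fintype _ _ (fun _ => rfl), Fin.sum_univ_two] at h2
  have hdeg : n.degree = n 0 + n 1 := by
    rw [Finsupp.degree_eq_sum, Fin.sum_univ_two]
  rw [hdeg]
  by_cases h : n 0 + n 1 = d
  · rw [if_pos h, h, Nat.sub_self, pow_zero, mul_one, MvPolynomial.eval₂_monomial,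
      Finsupp.prod_fintype _ _ (fun _ => pow_zero _), Fin.prod_univ_two]
    simp
  · rw [if_neg h, zero_pow (by omega), mul_zero, zero_mul]

/-- evaluation of a homogenisation -/
lemma eval_homog {S : Type*} [CommRing S] (ι : ℚ →+* S) (g : ℚ[X]) (d : ℕ) (a b : S) :
    MvPolynomial.eval₂ ι ![a, b] (homogenize g d) =
      ∑ k ∈ Finset.range (d + 1), ι (g.coeff k) * a ^ k * b ^ (d - k) := by
  rw [homogenize, MvPolynomial.eval₂_sum, Finset.Nat.sum_antidiagonal_eq_sum_range_succ_mk]
  apply Finset.sum_congr rfl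
  intro k hk
  rw [MvPolynomial.eval₂_monomial, Finsupp.prod_fintype _ _ (fun _ => pow_zero _),
    Fin.prod_univ_two]
  simp [mul_assoc]

/-- a nontrivial zero of an irreducible form -/
lemma root_of {S : Type*} [Field S] (ι : ℚ →+* S) (g : ℚ[X]) (d : ℕ) (hd : g.natDegree = d)
    (hg : g ≠ 0) (a b : S) (hab : a = 1 ∨ b = 1)
    (h : MvPolynomial.eval₂ ι ![a, b] (homogenize g d) = 0) :
    ∃ r : S, g.eval₂ ι r = 0 := by
  rw [eval_homog] at h
  by_cases hb : b = 0
  · exfalso
    have ha : a = 1 := by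
      rcases hab with h1 | h1
      · exact h1
      · rw [hb] at h1
        exact absurd h1 zero_ne_one
    rw [Finset.sum_eq_single d] at h
    · rw [Nat.sub_self, pow_zero, mul_one, ha, one_pow, mul_one, map_eq_zero, ← hd] at h
      exact hg (leadingCoeff_eq_zero.1 h)
    · intro k hk hkd
      rw [hb, zero_pow, mul_zero]
      have := Finset.mem_range.1 hk
      omega
    · intro h1
      exact absurd (Finset.mem_range.2 (Nat.lt_succ_self d)) h1
  · refine ⟨a / b, ?_⟩
    have h1 : b ^ d * g.eval₂ ι (a / b) = 0 := by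
      rw [eval₂_eq_sum_range, hd, Finset.mul_sum, ← h]
      apply Finset.sum_congr rfl
      intro k hk
      have hk' : k ≤ d := by
        have := Finset.mem_range.1 hk
        omega
      have h3 : b ^ d = b ^ (d - k) * b ^ k := by
        rw [← pow_add]
        congr 1
        omega
      rw [h3, div_pow]
      field_simp
    rcases mul_eq_zero.1 h1 with h2 | h2
    · exact absurd h2 (pow_ne_zero d hb)
    · exact h2

/-- `F_d(T, 1)`, where `F_d` is the homogeneous part of degree `d` of `F` -/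
noncomputable def top (d : ℕ) (F : MvPolynomial (Fin 2) ℤ) : ℚ[X] :=
  MvPolynomial.aeval ![X, 1]
    (MvPolynomial.homogeneousComponent d (MvPolynomial.map (Int.castRingHom ℚ) F))

lemma homogenize_top (d : ℕ) (F : MvPolynomial (Fin 2) ℤ) : homogenize (top d F) d =
    MvPolynomial.homogeneousComponent d (MvPolynomial.map (Int.castRingHom ℚ) F) :=
  homogenize_eq_of_isHomogeneous (MvPolynomial.homogeneousComponent_isHomogeneous _ _) rfl

lemma totalDegree_map_rat (F : MvPolynomial (Fin 2) ℤ) :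
    (MvPolynomial.map (Int.castRingHom ℚ) F).totalDegree = F.totalDegree := by
  rw [MvPolynomial.totalDegree, MvPolynomial.support_map_of_injective _ Int.cast_injective,
    ← MvPolynomial.totalDegree]

lemma place_root {F : MvPolynomial (Fin 2) ℤ} {d : ℕ} (hF : F.totalDegree ≤ d)
    (hg : top d F ≠ 0) (hgd : (top d F).natDegree = d)
    (E : Type) [Field E] [Algebra (CoordRing F) E] (A : ValuationSubring E)
    (hA : AtInfinity F E A) :
    ∃ (ι : ℚ →+* IsLocalRing.ResidueField A) (r : IsLocalRing.ResidueField A),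
      (top d F).eval₂ ι r = 0 := by
  obtain ⟨hq, i, hi⟩ := hA
  obtain ⟨ιE, hιE⟩ : ∃ ιE : ℚ →+* E,
      ιE = (algebraMap (CoordRing F) E).comp (algebraMap ℚ (CoordRing F)) := ⟨_, rfl⟩
  obtain ⟨π, hπ⟩ : ∃ π : MvPolynomial (Fin 2) ℚ →+* E,
      π = (algebraMap (CoordRing F) E).comp (Ideal.Quotient.mk _) := ⟨_, rfl⟩
  obtain ⟨x, hx⟩ : ∃ x, x = π (MvPolynomial.X 0) := ⟨_, rfl⟩
  obtain ⟨y, hy⟩ : ∃ y, y = π (MvPolynomial.X 1) := ⟨_, rfl⟩
  obtain ⟨P, hP⟩ : ∃ P, P = MvPolynomial.map (Int.castRingHom ℚ) F := ⟨_, rfl⟩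
  have hPd : P.totalDegree ≤ d := by rw [hP, totalDegree_map_rat]; exact hF
  have hev : MvPolynomial.eval₂ ιE ![x, y] P = 0 := by
    have h1 : (MvPolynomial.eval₂Hom ιE ![x, y]) = π := by
      apply MvPolynomial.ringHom_ext
      · intro q
        rw [MvPolynomial.eval₂Hom_C, hιE, hπ]
        rfl
      · intro j
        rw [MvPolynomial.eval₂Hom_X']
        fin_cases j
        · simpa using hx
        · simpa using hy
    have h2 : MvPolynomial.eval₂ ιE ![x, y] P = π P := by
      rw [← h1]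
      rfl
    rw [h2, hπ, RingHom.comp_apply, hP, Ideal.Quotient.eq_zero_iff_mem.2
      (Ideal.mem_span_singleton_self _), map_zero]
  have hmem : ∀ q, ιE q ∈ A.toSubring := fun q => by rw [hιE]; exact hq q
  obtain ⟨ιA, hιA⟩ : ∃ ιA : ℚ →+* A, ∀ q, (ιA q : E) = ιE q :=
    ⟨ιE.codRestrict A.toSubring hmem, fun q => rfl⟩
  have main : ∀ a b s : A, (s : E) * x = a → (s : E) * y = b → IsLocalRing.residue A s = 0 →
      (a = 1 ∨ b = 1) → ∃ (ι : ℚ →+* IsLocalRing.ResidueField A)
        (r : IsLocalRing.ResidueField A), (top d F).eval₂ ι r = 0 := by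
    intro a b s ha hb hs hab
    have h1 := hom_eval ιE P d hPd (a : E) (b : E) (s : E) x y ha hb
    rw [hev, mul_zero] at h1
    have h2 : ∑ n ∈ P.support, ιA (P.coeff n) * s ^ (d - (n 0 + n 1)) * (a ^ (n 0) * b ^ (n 1))
        = 0 := by
      apply Subtype.coe_injective
      push_cast
      simp only [hιA]
      exact h1.symm
    have h3 := congrArg (IsLocalRing.residue A) h2
    rw [map_sum, map_zero] at h3
    simp only [map_mul, map_pow, hs] at h3
    have h4 := hom_eval_zero ((IsLocalRing.residue A).comp ιA) P d hPd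
      (IsLocalRing.residue A a) (IsLocalRing.residue A b)
    simp only [RingHom.comp_apply] at h4
    rw [h3, hP, ← homogenize_top] at h4
    refine ⟨(IsLocalRing.residue A).comp ιA, ?_⟩
    refine root_of _ _ d hgd hg (IsLocalRing.residue A a) (IsLocalRing.residue A b) ?_ h4.symm
    rcases hab with h | h
    · left; rw [h, map_one]
    · right; rw [h, map_one]
  have hunit : ∀ (z : E) (hz : z⁻¹ ∈ A), z ∉ A → z ≠ 0 →
      IsLocalRing.residue A (⟨z⁻¹, hz⟩ : A) = 0 := by
    intro z hz hzA hz0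
    rw [IsLocalRing.residue_eq_zero_iff, IsLocalRing.mem_maximalIdeal, mem_nonunits_iff]
    intro hu
    obtain ⟨t, ht⟩ := hu.exists_right_inv
    have h1 : z⁻¹ * (t : E) = 1 := congrArg Subtype.val ht
    have h2 : (t : E) = z := by
      field_simp at h1
      exact h1
    exact hzA (h2 ▸ t.2)
  have hx' : x = algebraMap (CoordRing F) E (Ideal.Quotient.mk _ (MvPolynomial.X 0)) := by
    rw [hx, hπ]; rfl
  have hy' : y = algebraMap (CoordRing F) E (Ideal.Quotient.mk _ (MvPolynomial.X 1)) := by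
    rw [hy, hπ]; rfl
  have hxy : x ∉ A ∨ y ∉ A := by
    fin_cases i
    · left; rw [hx']; exact hi
    · right; rw [hy']; exact hi
  have hinv : ∀ z : E, z ∉ A → z⁻¹ ∈ A := fun z hz => (A.mem_or_inv_mem z).resolve_left hz
  have hne : ∀ z : E, z ∉ A → z ≠ 0 := by
    rintro z hz rfl
    exact hz A.zero_mem
  by_cases hc : x ∉ A ∧ y / x ∈ A
  · have hx0 := hne x hc.1
    refine main 1 ⟨y / x, hc.2⟩ ⟨x⁻¹, hinv x hc.1⟩ ?_ ?_ (hunit x _ hc.1 hx0) (Or.inl rfl)
    · show x⁻¹ * x = 1
      exact inv_mul_cancel₀ hx0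
    · show x⁻¹ * y = y / x
      field_simp
  · have hyA : y ∉ A ∧ x / y ∈ A := by
      by_cases hxA : x ∈ A
      · have hyA : y ∉ A := hxy.resolve_left (not_not.2 hxA)
        refine ⟨hyA, ?_⟩
        rw [div_eq_mul_inv]
        exact A.mul_mem _ _ hxA (hinv y hyA)
      · have h1 : y / x ∉ A := fun h => hc ⟨hxA, h⟩
        refine ⟨fun h => h1 ?_, ?_⟩
        · rw [div_eq_mul_inv]
          exact A.mul_mem _ _ h (hinv x hxA)
        · have := hinv _ h1
          rwa [inv_div] at this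
    have hy0 := hne y hyA.1
    refine main ⟨x / y, hyA.2⟩ 1 ⟨y⁻¹, hinv y hyA.1⟩ ?_ ?_ (hunit y _ hyA.1 hy0) (Or.inr rfl)
    · show y⁻¹ * x = x / y
      field_simp
    · show y⁻¹ * y = 1
      exact inv_mul_cancel₀ hy0

/-- the residue field condition for equations with an irreducible top form -/
lemma admits_top {F : MvPolynomial (Fin 2) ℤ} {d : ℕ} (hF : F.totalDegree ≤ d) (f : ℚ[X])
    [hf : Fact (Irreducible f)] (hg : top d F = f) (hfd : f.natDegree = d) :
    Admits (AdjoinRoot f) F := by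
  intro E _ _ _ A hA
  obtain ⟨ι, r, hr⟩ := place_root hF (by rw [hg]; exact hf.out.ne_zero) (by rw [hg]; exact hfd) E A
    ((hA A).2 rfl)
  rw [hg] at hr
  exact ⟨AdjoinRoot.lift ι r hr⟩

lemma irreducible_of_top {F : MvPolynomial (Fin 2) ℤ} {d : ℕ} (hd : 1 ≤ d)
    (hF : F.totalDegree ≤ d) (hg : Irreducible (top d F)) (hgd : (top d F).natDegree = d) :
    Irreducible (MvPolynomial.map (Int.castRingHom ℚ) F) := by
  have h1 : Irreducible (MvPolynomial.homogeneousComponent d
      (MvPolynomial.map (Int.castRingHom ℚ) F)) := by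
    rw [← homogenize_top]
    exact homogenize_irr hgd hg
  have h2 : (MvPolynomial.map (Int.castRingHom ℚ) F).totalDegree = d := by
    apply le_antisymm
    · rw [totalDegree_map_rat]
      exact hF
    · by_contra hcon
      push Not at hcon
      rw [MvPolynomial.homogeneousComponent_eq_zero _ _ hcon] at h1
      exact h1.ne_zero rfl
  apply irr_of_lead
  · rw [h2]
    exact hd
  · rw [h2]
    exact h1

lemma finrank_adjoinRoot {f : ℚ[X]} [hf : Fact (Irreducible f)] :
    Module.finrank ℚ (AdjoinRoot f) = f.natDegree := by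
  have h := (AdjoinRoot.powerBasis hf.out.ne_zero).finrank
  rw [AdjoinRoot.powerBasis_dim] at h
  convert h

lemma realImages_adjoinRoot {f : ℚ[X]} [hf : Fact (Irreducible f)] {M : IntermediateField ℚ ℝ}
    (hM : M ∈ realImages (AdjoinRoot f)) : ∃ t : ℝ, aeval t f = 0 ∧ M = ℚ⟮t⟯ := by
  obtain ⟨φ, hφ⟩ := hM
  obtain ⟨t, ht⟩ : ∃ t, t = φ (AdjoinRoot.root f) := ⟨_, rfl⟩
  have hcomp : ∀ p : ℚ[X], φ (AdjoinRoot.mk f p) = aeval t p := by
    intro p
    have h1 : φ.comp (AdjoinRoot.mk f) = (aeval t : ℚ[X] →ₐ[ℚ] ℝ).toRingHom := by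
      apply Polynomial.ringHom_ext
      · intro q
        have h2 := RingHom.congr_fun (Subsingleton.elim
          ((φ.comp (AdjoinRoot.mk f)).comp (C : ℚ →+* ℚ[X])) (algebraMap ℚ ℝ)) q
        rw [RingHom.comp_apply] at h2
        rw [h2]
        exact (aeval_C t q).symm
      · rw [RingHom.comp_apply, AdjoinRoot.mk_X, ← ht]
        exact (aeval_X t).symm
    have h2 := RingHom.congr_fun h1 p
    exact h2
  refine ⟨t, ?_, ?_⟩
  · rw [← hcomp, AdjoinRoot.mk_self, map_zero]
  · apply le_antisymm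
    · intro z hz
      have hz' : z ∈ (M : Set ℝ) := hz
      rw [hφ] at hz'
      obtain ⟨w, rfl⟩ := hz'
      obtain ⟨p, rfl⟩ := AdjoinRoot.mk_surjective w
      rw [hcomp]
      exact IntermediateField.algebra_adjoin_le_adjoin ℚ _ (aeval_mem_adjoin_singleton ℚ t)
    · rw [IntermediateField.adjoin_simple_le_iff]
      show t ∈ (M : Set ℝ)
      rw [hφ, ht]
      exact Set.mem_range_self _

lemma polyL_append (L L' : List (ℕ × ℕ × ℤ)) : polyL (L ++ L') = polyL L + polyL L' := by
  simp [polyL]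

lemma totalDegree_polyL_lt {d : ℕ} (hd : 1 ≤ d) (R : List (ℕ × ℕ × ℤ))
    (hR : ∀ t ∈ R, t.1 + t.2.1 < d) : (polyL R).totalDegree < d := by
  induction R with
  | nil =>
    simp [polyL]
    omega
  | cons t R ih =>
    have h1 : polyL (t :: R) = polyL [t] + polyL R := polyL_append [t] R
    rw [h1]
    refine lt_of_le_of_lt (MvPolynomial.totalDegree_add _ _) (max_lt ?_ ?_)
    · have h2 : polyL [t] = MvPolynomial.monomial
          (Finsupp.single 0 t.1 + Finsupp.single 1 t.2.1) t.2.2 := by simp [polyL]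
      rw [h2]
      refine lt_of_le_of_lt (MvPolynomial.totalDegree_monomial_le _ _) ?_
      rw [Finsupp.sum_fintype _ _ (fun _ => rfl), Fin.sum_univ_two]
      simpa using hR t (List.mem_cons_self ..)
    · exact ih (fun s hs => hR s (List.mem_cons_of_mem _ hs))

lemma top_add {d : ℕ} (F G : MvPolynomial (Fin 2) ℤ) (hG : G.totalDegree < d) :
    top d (F + G) = top d F := by
  unfold top
  rw [map_add, map_add, MvPolynomial.homogeneousComponent_eq_zero d
    (MvPolynomial.map (Int.castRingHom ℚ) G) (by rw [totalDegree_map_rat]; exact hG), add_zero]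

/-- the family of all equations with given terms of degree at least `d` -/
def fam (d : ℕ) (N : List (ℕ × ℕ × ℤ)) (j : ℕ) : List (ℕ × ℕ × ℤ) :=
  N ++ ((Encodable.decode (α := List (ℕ × ℕ × ℤ)) j).getD []).filter
    (fun t => decide (t.1 + t.2.1 < d))

lemma fam_computable (d : ℕ) : Computable₂ (fam d) := by
  have hp : PrimrecPred (fun t : ℕ × ℕ × ℤ => t.1 + t.2.1 < d) :=
    Primrec.nat_lt.comp (Primrec.nat_add.comp Primrec.fst (Primrec.fst.comp Primrec.snd))
      (Primrec.const d)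
  have h1 : Primrec (fun q : List (ℕ × ℕ × ℤ) × ℕ =>
      (Encodable.decode (α := List (ℕ × ℕ × ℤ)) q.2).getD []) :=
    Primrec.option_getD.comp (Primrec.decode.comp Primrec.snd) (Primrec.const [])
  have h2 : Primrec (fun q : List (ℕ × ℕ × ℤ) × ℕ =>
      ((Encodable.decode (α := List (ℕ × ℕ × ℤ)) q.2).getD []).filter
        (fun t => decide (t.1 + t.2.1 < d))) := (Primrec.listFilter hp).comp h1
  have h3 : Primrec (fun q : List (ℕ × ℕ × ℤ) × ℕ => fam d q.1 q.2) :=
    Primrec.list_append.comp Primrec.fst h2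
  exact h3.to_comp

/-- **Trial and error for all equations with a given irreducible top form.** -/
theorem thue (d : ℕ) (hd : 3 ≤ d) : ∃ K : ℕ, ∃ G : List (ℕ × ℕ × ℤ) → ℕ → ℕ, Computable₂ G ∧
    ∀ N : List (ℕ × ℕ × ℤ), (polyL N).totalDegree ≤ d → Irreducible (top d (polyL N)) →
      (top d (polyL N)).natDegree = d →
      Monotone (G N) ∧
      (∃ T : Set (IntermediateField ℚ ℝ),
        (∀ M ∈ T, ∃ t : ℝ, aeval t (top d (polyL N)) = 0 ∧ M = ℚ⟮t⟯) ∧
        T.Pairwise Far ∧ {n | G N n ≠ G N (n + 1)}.encard ≤ T.encard) ∧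
      ∃ n₀, ∀ n, n₀ ≤ n → ∀ R : List (ℕ × ℕ × ℤ), (∀ t ∈ R, t.1 + t.2.1 < d) → ∀ x y : ℤ,
        (N.map (fun t => t.2.2 * x ^ t.1 * y ^ t.2.1)).sum +
          (R.map (fun t => t.2.2 * x ^ t.1 * y ^ t.2.1)).sum = 0 →
        max x.natAbs y.natAbs ≤ (G N n * ((N.map (fun t => t.2.2.natAbs)).sum +
          (R.map (fun t => t.2.2.natAbs)).sum)) ^ K := by
  obtain ⟨K, hK⟩ := main d
  obtain ⟨G, hG, h⟩ := hK (List (ℕ × ℕ × ℤ)) (fam d) (fam_computable d)
  refine ⟨K, G, hG, ?_⟩
  intro N hNd hirr hdeg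
  have hfact : Fact (Irreducible (top d (polyL N))) := ⟨hirr⟩
  have hlow : ∀ j, (polyL (((Encodable.decode (α := List (ℕ × ℕ × ℤ)) j).getD []).filter
      (fun t => decide (t.1 + t.2.1 < d)))).totalDegree < d := by
    intro j
    apply totalDegree_polyL_lt (by omega)
    intro t ht
    simpa using (List.mem_filter.1 ht).2
  have hfamd : ∀ j, (polyL (fam d N j)).totalDegree ≤ d := by
    intro j
    rw [fam, polyL_append]
    exact (MvPolynomial.totalDegree_add _ _).trans (max_le hNd (hlow j).le)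
  have htop : ∀ j, top d (polyL (fam d N j)) = top d (polyL N) := by
    intro j
    rw [fam, polyL_append, top_add _ _ (hlow j)]
  obtain ⟨h1, ⟨T, hT1, hT2, hT3⟩, n₀, hn₀⟩ := h N (AdjoinRoot (top d (polyL N)))
    (by rw [finrank_adjoinRoot, hdeg]; exact hd) (fun j => ⟨hfamd j,
      irreducible_of_top (by omega) (hfamd j) (by rw [htop]; exact hirr) (by rw [htop]; exact hdeg),
      admits_top (hfamd j) _ (htop j) hdeg⟩)
  refine ⟨h1, ⟨T, fun M hM => realImages_adjoinRoot (hT1 hM), hT2, hT3⟩, n₀, ?_⟩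
  intro n hn R hR x y hxy
  have hdec : fam d N (Encodable.encode R) = N ++ R := by
    rw [fam, Encodable.encodek, Option.getD_some, List.filter_eq_self.2]
    intro t ht
    simpa using hR t ht
  have h2 := hn₀ n hn (Encodable.encode R) x y
  rw [hdec, List.map_append, List.sum_append, List.map_append, List.sum_append] at h2
  exact h2 hxy

end Pool.Agent.V11270.SI
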